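import Pool.Agent.Helper75.CG.Defs

/-!
# Project CG, module CG-S: the selection of one block in a district
-/

set_option autoImplicit false

namespace Pool.Agent.Helper75.CG

open scoped Classical
open Finset
open Pool.Agent.Helper65.CliqueGame

section abstract

variable {V : Type} [Fintype V] {ι : Type}

theorem sel_mass_eq (φ : Finset V → ℝ) (S : Finset V) :
    mass φ S = ∑ A : Finset V, if S ⊆ A then φ A else 0 := by
  rw [mass, sum_filter]

theorem sel_load {K : ℝ} {SS : Finset (Finset V)} {φ cap : Finset V → ℝ} (hG : Good K SS φ cap)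
    (κ : Finset V) : ∑ S ∈ SS, rat φ cap S * mass φ (S ∪ κ) ≤ K * mass φ κ := by
  have h1 : ∑ S ∈ SS, rat φ cap S * mass φ (S ∪ κ) =
      ∑ A : Finset V, (if κ ⊆ A then φ A * ∑ S ∈ SS.filter (fun S => S ⊆ A), rat φ cap S
        else 0) := by
    simp_rw [sel_mass_eq φ, mul_sum]
    rw [sum_comm]
    refine sum_congr rfl fun A _ => ?_
    by_cases hA : κ ⊆ A
    · rw [if_pos hA, sum_filter]
      refine sum_congr rfl fun S _ => ?_
      by_cases hS : S ⊆ A
      · rw [if_pos (union_subset hS hA), if_pos hS]; ring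
      · rw [if_neg (fun h => hS (subset_union_left.trans h)), if_neg hS]; ring
    · rw [if_neg hA]
      refine sum_eq_zero fun S _ => ?_
      rw [if_neg (fun h => hA (subset_union_right.trans h)), mul_zero]
  rw [h1, sel_mass_eq φ κ, mul_sum]
  refine sum_le_sum fun A _ => ?_
  by_cases hA : κ ⊆ A
  · rw [if_pos hA, if_pos hA]
    by_cases h0 : φ A = 0
    · rw [h0]; simp
    · rw [mul_comm K]; exact mul_le_mul_of_nonneg_left (hG.load A h0) (hG.nonneg A)
  · rw [if_neg hA, if_neg hA, mul_zero]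

theorem sel_mass_nonneg {φ : Finset V → ℝ} (h : ∀ A, 0 ≤ φ A) (S : Finset V) : 0 ≤ mass φ S :=
  sum_nonneg fun A _ => h A

/-- The part of the mass of `S` in the structures which avoid the district. -/
noncomputable def selB (φ : Finset V → ℝ) (d S : Finset V) : ℝ :=
  ∑ A : Finset V, if S ⊆ A ∧ A ∩ d = ∅ then φ A else 0

section

variable {φ : Finset V → ℝ} {m : ℕ} {d : Finset V}

theorem sel_Y {Y : Finset V} (hm : 1 ≤ m) (hY : Y ∈ d.powersetCard m) : Y ⊆ d ∧ Y ≠ ∅ := by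
  rw [mem_powersetCard] at hY
  refine ⟨hY.1, ?_⟩
  rintro rfl
  rw [card_empty] at hY
  omega

theorem sel_inter (hm : 1 ≤ m) (hA : ∀ A, φ A ≠ 0 → A ∩ d = ∅ ∨ (A ∩ d).card = m)
    {Y : Finset V} (hY : Y ∈ d.powersetCard m) {A : Finset V} (h : φ A ≠ 0) (hYA : Y ⊆ A) :
    A ∩ d = Y := by
  obtain ⟨h1, h2⟩ := sel_Y hm hY
  have h3 : Y ⊆ A ∩ d := subset_inter hYA h1
  have h4 : A ∩ d ≠ ∅ := fun h5 => h2 (subset_empty.1 (h5 ▸ h3))
  have h5 : (A ∩ d).card = m := (hA A h).resolve_left h4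
  exact (eq_of_subset_of_card_le h3 (by rw [h5, (mem_powersetCard.1 hY).2])).symm

theorem sel_M1 (hm : 1 ≤ m) (hA : ∀ A, φ A ≠ 0 → A ∩ d = ∅ ∨ (A ∩ d).card = m) (N : ℝ)
    {Y : Finset V} (hY : Y ∈ d.powersetCard m) (S : Finset V) :
    mass (select N d Y φ) S = selB φ d S + N * mass φ (S ∪ Y) := by
  obtain ⟨hYd, hY0⟩ := sel_Y hm hY
  rw [sel_mass_eq, sel_mass_eq, selB, mul_sum, ← sum_add_distrib]
  refine sum_congr rfl fun A _ => ?_
  by_cases h0 : φ A = 0
  · simp [select, h0]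
  by_cases hS : S ⊆ A
  · rw [if_pos hS]
    by_cases h1 : A ∩ d = Y
    · have h2 : ¬ (S ⊆ A ∧ A ∩ d = ∅) := fun h => hY0 (h1 ▸ h.2)
      have h3 : S ∪ Y ⊆ A := union_subset hS (h1 ▸ inter_subset_left)
      rw [if_neg h2, if_pos h3, select, if_pos h1, zero_add]
    · have h3 : ¬ S ∪ Y ⊆ A := fun h => h1 (sel_inter hm hA hY h0 (subset_union_right.trans h))
      rw [if_neg h3, mul_zero, add_zero, select, if_neg h1]
      by_cases h4 : A ∩ d = ∅
      · rw [if_pos h4, if_pos ⟨hS, h4⟩]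
      · rw [if_neg h4, if_neg fun h => h4 h.2]
  · rw [if_neg hS, if_neg fun h => hS h.1, if_neg fun h => hS (subset_union_left.trans h)]
    simp

theorem sel_M2 (hm : 1 ≤ m) (hA : ∀ A, φ A ≠ 0 → A ∩ d = ∅ ∨ (A ∩ d).card = m)
    (S : Finset V) :
    mass φ S = selB φ d S + ∑ Y ∈ d.powersetCard m, mass φ (S ∪ Y) := by
  simp_rw [sel_mass_eq φ]
  rw [sum_comm, selB, ← sum_add_distrib]
  refine sum_congr rfl fun A _ => ?_
  by_cases h0 : φ A = 0
  · simp [h0]
  by_cases hS : S ⊆ A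
  · rw [if_pos hS]
    by_cases h4 : A ∩ d = ∅
    · rw [if_pos ⟨hS, h4⟩]
      rw [sum_eq_zero, add_zero]
      intro Y hY
      rw [if_neg]
      intro h
      have h1 := sel_inter hm hA hY h0 (subset_union_right.trans h)
      exact (sel_Y hm hY).2 (h1 ▸ h4)
    · rw [if_neg fun h => h4 h.2, zero_add]
      have h5 : A ∩ d ∈ d.powersetCard m :=
        mem_powersetCard.2 ⟨inter_subset_right, (hA A h0).resolve_left h4⟩
      rw [sum_eq_single_of_mem _ h5, if_pos (union_subset hS inter_subset_left)]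
      intro Y hY hne
      rw [if_neg]
      intro h
      exact hne (sel_inter hm hA hY h0 (subset_union_right.trans h)).symm
  · rw [if_neg hS, if_neg fun h => hS h.1, sum_eq_zero, add_zero]
    intro Y _
    rw [if_neg fun h => hS (subset_union_left.trans h)]

theorem sel_M3 (hm : 1 ≤ m) (hA : ∀ A, φ A ≠ 0 → A ∩ d = ∅ ∨ (A ∩ d).card = m) (N : ℝ)
    {Y : Finset V} (hY : Y ∈ d.powersetCard m) {S : Finset V} (hS : S ∩ d = Y) :
    mass (select N d Y φ) S = N * mass φ S := by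
  rw [sel_mass_eq, sel_mass_eq, mul_sum]
  refine sum_congr rfl fun A _ => ?_
  by_cases h : S ⊆ A
  · rw [if_pos h, if_pos h]
    by_cases h0 : φ A = 0
    · simp [select, h0]
    · rw [select, if_pos (sel_inter hm hA hY h0 ((hS ▸ inter_subset_left : Y ⊆ S).trans h))]
  · rw [if_neg h, if_neg h, mul_zero]

end

theorem select_one {K ν : ℝ} {SS : Finset (Finset V)} {φ cap : Finset V → ℝ}
    (hG : Good K SS φ cap) (hK : 0 ≤ K) (hν : 0 ≤ ν) (m : ℕ) (hm : 1 ≤ m) (d : Finset V)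
    (hd : m ≤ d.card)
    (hA : ∀ A, φ A ≠ 0 → A ∩ d = ∅ ∨ (A ∩ d).card = m)
    (hSl : ∀ A, φ A ≠ 0 → ∀ S ∈ SS, S ⊆ A → S ∩ d = ∅ → A ∩ d ≠ ∅ →
      S ∪ (A ∩ d) ∈ SS ∧ (d.card.choose m : ℝ) * cap (S ∪ (A ∩ d)) ≤ ν * cap S) :
    ∃ Y ∈ d.powersetCard m,
      PP SS φ cap - ν * K * ∑ Y' ∈ d.powersetCard m, mass φ Y' ≤
        PP (SS.filter (fun S => S ∩ d = ∅ ∨ S ∩ d = Y))
          (select (d.card.choose m) d Y φ) (selectCap (d.card.choose m) d Y cap) := by
  obtain ⟨N, hN⟩ : ∃ N : ℝ, N = (d.card.choose m : ℝ) := ⟨_, rfl⟩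
  rw [← hN] at hSl ⊢
  have hNpos : 0 < N := by
    rw [hN]; exact_mod_cast Nat.choose_pos hd
  obtain ⟨YY, hYY⟩ : ∃ YY, YY = d.powersetCard m := ⟨_, rfl⟩
  have hcard : (YY.card : ℝ) = N := by rw [hYY, card_powersetCard, hN]
  have hne : YY.Nonempty := by
    rw [← card_pos]
    have : (0 : ℝ) < YY.card := hcard ▸ hNpos
    exact_mod_cast this
  have hmn := sel_mass_nonneg hG.nonneg
  rw [← hYY]
  -- the sum of the second terms
  set E : ℝ := ∑ Y ∈ YY, mass φ Y with hE
  set a : Finset V → ℝ := fun S => mass φ S ^ 2 / cap S with ha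
  have ha0 : ∀ S, 0 ≤ a S := fun S => div_nonneg (sq_nonneg _) (hG.pos S).le
  have hPP : ∀ Y ∈ YY, PP (SS.filter (fun S => S ∩ d = ∅ ∨ S ∩ d = Y)) (select N d Y φ)
      (selectCap N d Y cap) = (selB φ d ∅ + N * mass φ Y) -
        (∑ S ∈ SS.filter (fun S => S ∩ d = ∅),
          (selB φ d S + N * mass φ (S ∪ Y)) ^ 2 / cap S +
        ∑ S ∈ SS.filter (fun S => S ∩ d = Y), N * a S) := by
    intro Y hY
    rw [hYY] at hY
    obtain ⟨hYd, hY0⟩ := sel_Y hm hY
    rw [PP, filter_or, sum_union]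
    · congr 1
      · rw [sel_M1 hm hA N hY, empty_union]
      · congr 1
        · refine sum_congr rfl fun S hS => ?_
          have h1 := (mem_filter.1 hS).2
          rw [sel_M1 hm hA N hY, selectCap, if_neg]
          rw [h1]; exact fun h => hY0 h.symm
        · refine sum_congr rfl fun S hS => ?_
          have h1 := (mem_filter.1 hS).2
          rw [sel_M3 hm hA N hY h1, selectCap, if_pos h1, ha]
          have := (hG.pos S).ne'
          have := hNpos.ne'
          field_simp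
    · rw [disjoint_filter]
      intro S _ h1 h2
      exact hY0 (h2 ▸ h1)
  have hsum : N * (PP SS φ cap - ν * K * E) ≤
      ∑ Y ∈ YY, PP (SS.filter (fun S => S ∩ d = ∅ ∨ S ∩ d = Y)) (select N d Y φ)
      (selectCap N d Y cap) := by
    rw [sum_congr rfl hPP, sum_sub_distrib, sum_add_distrib, sum_const, nsmul_eq_mul, hcard,
      ← mul_sum, sum_add_distrib, sum_comm]
    have hM2 := sel_M2 hm hA (φ := φ)
    rw [← hYY] at hM2
    -- the terms with `S ∩ d = ∅`
    have h3 : ∑ S ∈ SS.filter (fun S => S ∩ d = ∅), ∑ Y ∈ YY,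
        (selB φ d S + N * mass φ (S ∪ Y)) ^ 2 / cap S ≤
        N * ∑ S ∈ SS.filter (fun S => S ∩ d = ∅), a S +
          N * ∑ Y ∈ YY, ∑ S ∈ SS.filter (fun S => S ∩ d = ∅),
            N * mass φ (S ∪ Y) ^ 2 / cap S := by
      rw [sum_comm (s := YY), mul_sum, mul_sum, ← sum_add_distrib]
      refine sum_le_sum fun S _ => ?_
      have hc := hG.pos S
      have e1 : ∑ Y ∈ YY, (selB φ d S + N * mass φ (S ∪ Y)) ^ 2 / cap S =
          (N * selB φ d S ^ 2 + 2 * N * selB φ d S * (∑ Y ∈ YY, mass φ (S ∪ Y)) +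
            N ^ 2 * ∑ Y ∈ YY, mass φ (S ∪ Y) ^ 2) / cap S := by
        rw [← sum_div]
        congr 1
        have : ∀ Y ∈ YY, (selB φ d S + N * mass φ (S ∪ Y)) ^ 2 = selB φ d S ^ 2 +
            2 * N * selB φ d S * mass φ (S ∪ Y) + N ^ 2 * mass φ (S ∪ Y) ^ 2 := by
          intro Y _; ring
        rw [sum_congr rfl this, sum_add_distrib, sum_add_distrib, sum_const, nsmul_eq_mul, hcard,
          ← mul_sum, ← mul_sum]
      have e2 : N * a S + N * ∑ Y ∈ YY, N * mass φ (S ∪ Y) ^ 2 / cap S =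
          (N * (selB φ d S + ∑ Y ∈ YY, mass φ (S ∪ Y)) ^ 2 +
            N ^ 2 * ∑ Y ∈ YY, mass φ (S ∪ Y) ^ 2) / cap S := by
        rw [ha, ← hM2 S, ← sum_div, ← mul_sum]
        ring
      rw [e1, e2]
      apply div_le_div_of_nonneg_right _ hc.le
      nlinarith [sq_nonneg (∑ Y ∈ YY, mass φ (S ∪ Y)), hNpos]
    -- the error
    have h4 : ∑ Y ∈ YY, ∑ S ∈ SS.filter (fun S => S ∩ d = ∅), N * mass φ (S ∪ Y) ^ 2 / cap S ≤
        ν * K * E := by
      rw [hE, mul_sum]
      refine sum_le_sum fun Y hY => ?_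
      rw [hYY] at hY
      obtain ⟨hYd, hY0⟩ := sel_Y hm hY
      have hr0 : ∀ T, 0 ≤ rat φ cap T * mass φ (T ∪ Y) := fun T =>
        mul_nonneg (div_nonneg (hmn T) (hG.pos T).le) (hmn _)
      have h5 : ∀ S ∈ SS.filter (fun S => S ∩ d = ∅), N * mass φ (S ∪ Y) ^ 2 / cap S ≤
          ν * (if S ∪ Y ∈ SS then rat φ cap (S ∪ Y) * mass φ (S ∪ Y ∪ Y) else 0) := by
        intro S hS
        obtain ⟨hS1, hS2⟩ := mem_filter.1 hS
        by_cases h0 : mass φ (S ∪ Y) = 0
        · rw [h0]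
          simp only [ne_eq, OfNat.ofNat_ne_zero, not_false_eq_true, zero_pow, mul_zero, zero_div]
          split_ifs
          · exact mul_nonneg hν (hr0 _)
          · rw [mul_zero]
        · obtain ⟨A, hA1, hA2⟩ : ∃ A, φ A ≠ 0 ∧ S ∪ Y ⊆ A := by
            by_contra hcon
            push Not at hcon
            apply h0
            rw [mass]
            refine sum_eq_zero fun A hA' => ?_
            by_contra h6
            exact hcon A h6 (mem_filter.1 hA').2
          have h7 := sel_inter hm hA hY hA1 (subset_union_right.trans hA2)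
          have h8 := hSl A hA1 S hS1 (subset_union_left.trans hA2) hS2 (h7 ▸ hY0)
          rw [h7] at h8
          rw [if_pos h8.1, union_assoc, union_self, rat]
          have hc1 := hG.pos S
          have hc2 := hG.pos (S ∪ Y)
          rw [show ν * (mass φ (S ∪ Y) / cap (S ∪ Y) * mass φ (S ∪ Y)) =
            ν * mass φ (S ∪ Y) ^ 2 / cap (S ∪ Y) by ring, div_le_div_iff₀ hc1 hc2]
          nlinarith [mul_le_mul_of_nonneg_left h8.2 (sq_nonneg (mass φ (S ∪ Y)))]
      refine (sum_le_sum h5).trans ?_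
      rw [← mul_sum, mul_assoc]
      refine mul_le_mul_of_nonneg_left ?_ hν
      refine le_trans ?_ (sel_load hG Y)
      rw [← sum_filter]
      have hinj : Set.InjOn (fun S => S ∪ Y) ((SS.filter (fun S => S ∩ d = ∅)).filter
          (fun S => S ∪ Y ∈ SS) : Set (Finset V)) := by
        intro S hS S' hS' hSS
        have e : ∀ S ∈ (SS.filter (fun S => S ∩ d = ∅)).filter (fun S => S ∪ Y ∈ SS),
            (S ∪ Y) \ d = S := by
          intro S hS
          have h1 := (mem_filter.1 (mem_filter.1 hS).1).2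
          rw [union_sdiff_distrib, sdiff_eq_empty_iff_subset.2 hYd, union_empty,
            Finset.sdiff_eq_self_iff_disjoint, Finset.disjoint_iff_inter_eq_empty]
          exact h1
        rw [← e S hS, ← e S' hS']
        exact congrArg (fun T => T \ d) hSS
      rw [← sum_image (f := fun T => rat φ cap T * mass φ (T ∪ Y)) (g := fun S => S ∪ Y) hinj]
      refine sum_le_sum_of_subset_of_nonneg ?_ fun T _ _ => hr0 T
      intro T hT
      obtain ⟨S, hS, rfl⟩ := mem_image.1 hT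
      exact (mem_filter.1 hS).2
    -- the terms with `S ∩ d ∈ YY`
    have h6 : ∑ Y ∈ YY, ∑ S ∈ SS.filter (fun S => S ∩ d = Y), N * a S ≤
        N * ∑ S ∈ SS.filter (fun S => ¬ S ∩ d = ∅), a S := by
      simp_rw [← mul_sum]
      refine mul_le_mul_of_nonneg_left ?_ hNpos.le
      rw [← sum_biUnion]
      · refine sum_le_sum_of_subset_of_nonneg ?_ fun T _ _ => ha0 T
        intro S hS
        obtain ⟨Y, hY, hS⟩ := mem_biUnion.1 hS
        obtain ⟨h1, h2⟩ := mem_filter.1 hS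
        refine mem_filter.2 ⟨h1, ?_⟩
        rw [h2]
        rw [hYY] at hY
        exact (sel_Y hm hY).2
      · intro Y _ Y' _ hYY'
        rw [Function.onFun, disjoint_left]
        intro S h1 h2
        exact hYY' ((mem_filter.1 h1).2.symm.trans (mem_filter.1 h2).2)
    have h7 : ∑ S ∈ SS, a S = ∑ S ∈ SS.filter (fun S => S ∩ d = ∅), a S +
        ∑ S ∈ SS.filter (fun S => ¬ S ∩ d = ∅), a S :=
      (sum_filter_add_sum_filter_not _ _ _).symm
    have h8 : N * selB φ d ∅ + N * ∑ Y ∈ YY, mass φ Y = N * mass φ ∅ := by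
      rw [hM2 ∅]
      simp_rw [empty_union]
      ring
    have h9 : PP SS φ cap = mass φ ∅ - ∑ S ∈ SS, a S := rfl
    rw [h8, h9, h7]
    have h10 := mul_le_mul_of_nonneg_left h4 hNpos.le
    linarith
  have hfin : ∑ Y ∈ YY, (PP SS φ cap - ν * K * E) ≤
      ∑ Y ∈ YY, PP (SS.filter (fun S => S ∩ d = ∅ ∨ S ∩ d = Y)) (select N d Y φ)
      (selectCap N d Y cap) := by
    rw [sum_const, nsmul_eq_mul, hcard]
    exact hsum
  exact exists_le_of_sum_le hne hfin

end abstract

end Pool.Agent.Helper75.CG
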